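import Pool.Agent.Q35.ZC.Stm3
import Pool.Agent.Y720.WL.Rc

/-!
# Job NOD of project ZC (helper35), by helper68: points on singular fibres
-/

set_option autoImplicit false
set_option linter.unusedSectionVars false

open Polynomial Pool.Agent.Q35.ZC
open Pool.Agent.Y720.MZ (rst rst_eval deg_rst)

namespace Pool.Agent.Q68.ZC

section

variable {F : Type} [Field F] [CharZero F] {n : ℕ}

theorem dl_zero (x : Fin n → F) : dl x (0 : F) = 0 := by
  unfold dl
  rw [neg_zero, sub_self]

theorem mv_zero (x : Fin n → F) (i : Fin n) : mv x i 0 = x := by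
  funext a
  unfold mv
  rw [zero_mul, add_zero]

theorem rst_mv (f : MvPolynomial (Fin n) F) (x : Fin n → F) (i : Fin n) (t : F) :
    (rst f x (Pi.single i 1)).eval t = MvPolynomial.eval (mv x i t) f := by
  rw [rst_eval]
  rfl

theorem aeval_eval (f : MvPolynomial (Fin n) F) (c : Fin n → F[X]) (t : F) :
    (MvPolynomial.aeval c f).eval t = MvPolynomial.eval (fun k => (c k).eval t) f := by
  induction f using MvPolynomial.induction_on with
  | C a => simp
  | add p q hp hq => simp only [map_add, Polynomial.eval_add, hp, hq]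
  | mul_X p i hp => simp only [map_mul, Polynomial.eval_mul, hp, MvPolynomial.aeval_X,
      MvPolynomial.eval_X]

/-- the case of a square -/
theorem nod_sq (f : MvPolynomial (Fin n) F) (x : Fin n → F) (i : Fin n) (r : F)
    (h : F[X]) (hh : h ^ 2 = rst f x (Pi.single i 1)) (hr : h.eval r = 0) (w : F)
    (hw : w ^ 2 = MvPolynomial.eval x f) : dl x w ∈ Rat f := by
  have key : ∀ ε : F, ε ^ 2 = 1 → pt x (ε * h.eval 0) - pt (mv x i r) 0 ∈ Rat f := by
    intro ε hε
    apply AddSubgroup.subset_closure
    left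
    right
    refine ⟨fun k => C (x k) + C (r * (Pi.single i 1 : Fin n → F) k) * X,
      C ε * h.comp (C r * X), ?_, ?_⟩
    · refine Polynomial.funext fun t => ?_
      rw [aeval_eval, mul_pow, ← C_pow, hε, C_1, one_mul, eval_pow, eval_comp]
      have h1 : (eval (eval t (C r * X)) h) ^ 2 = (rst f x (Pi.single i 1)).eval (r * t) := by
        rw [← hh, eval_pow]
        simp
      rw [h1, rst_mv]
      congr 1
      congr 1
      funext k
      unfold mv
      simp only [eval_add, eval_mul, eval_C, eval_X]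
      ring
    · have e1 : (fun k => (C (x k) + C (r * (Pi.single i 1 : Fin n → F) k) * X).eval 0) = x := by
        funext k
        simp
      have e2 : (fun k => (C (x k) + C (r * (Pi.single i 1 : Fin n → F) k) * X).eval 1) =
          mv x i r := by
        funext k
        unfold mv
        simp only [eval_add, eval_mul, eval_C, eval_X]
        ring
      have e3 : (C ε * h.comp (C r * X)).eval 0 = ε * h.eval 0 := by
        simp [eval_comp]
      have e4 : (C ε * h.comp (C r * X)).eval 1 = 0 := by
        simp [eval_comp, hr]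
      show pt x (ε * h.eval 0) - pt (mv x i r) 0 =
        pt (fun k => (C (x k) + C (r * (Pi.single i 1 : Fin n → F) k) * X).eval 0)
          ((C ε * h.comp (C r * X)).eval 0) -
        pt (fun k => (C (x k) + C (r * (Pi.single i 1 : Fin n → F) k) * X).eval 1)
          ((C ε * h.comp (C r * X)).eval 1)
      rw [e1, e2, e3, e4]
  have k1 := key 1 (one_pow 2)
  have k2 := key (-1) (by norm_num)
  rw [one_mul] at k1
  rw [neg_one_mul] at k2
  have h0 : w ^ 2 = (h.eval 0) ^ 2 := by
    rw [hw, ← eval_pow, hh, rst_mv, mv_zero]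
  rcases sq_eq_sq_iff_eq_or_eq_neg.1 h0 with h1 | h1
  · have : dl x w = (pt x (h.eval 0) - pt (mv x i r) 0) - (pt x (-h.eval 0) - pt (mv x i r) 0) := by
      unfold dl
      rw [h1]
      abel
    rw [this]
    exact sub_mem k1 k2
  · have : dl x w = (pt x (-h.eval 0) - pt (mv x i r) 0) - (pt x (h.eval 0) - pt (mv x i r) 0) := by
      unfold dl
      rw [h1, neg_neg]
      abel
    rw [this]
    exact sub_mem k2 k1

/-- two points of a nodal curve -/
theorem nod_two (f : MvPolynomial (Fin n) F) (x : Fin n → F) (i : Fin n) (r l m k : F)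
    (hq : rst f x (Pi.single i 1) = (X - C r) ^ 2 * (C l * X ^ 2 + C m * X + C k))
    (hD : m ^ 2 - 4 * l * k ≠ 0) (s s' a b : F) (hss : s ≠ s')
    (ha : a ^ 2 = l * s ^ 2 + m * s + k) (hb : b ^ 2 = l * s' ^ 2 + m * s' + k) :
    dl (mv x i s) (a * (s - r)) + dl (mv x i s') (b * (s' - r)) ∈ Rat f := by
  have hs0 : s - s' ≠ 0 := sub_ne_zero.2 hss
  obtain ⟨β, hβ⟩ : ∃ β : F, β = (a - b) / (s - s') := ⟨_, rfl⟩
  obtain ⟨α, hα⟩ : ∃ α : F, α = a - β * s := ⟨_, rfl⟩
  have hβ' : β * (s - s') = a - b := by
    rw [hβ]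
    exact div_mul_cancel₀ _ hs0
  have h1 : α + β * s = a := by rw [hα]; ring
  have h2 : α + β * s' = b := by
    rw [hα]
    linear_combination -hβ'
  have e1 : (α + β * s) ^ 2 = l * s ^ 2 + m * s + k := by rw [h1, ha]
  have e2 : (α + β * s') ^ 2 = l * s' ^ 2 + m * s' + k := by rw [h2, hb]
  have c1 : 2 * α * β - m = -(β ^ 2 - l) * (s + s') := by
    have : (s - s') * (2 * α * β - m + (β ^ 2 - l) * (s + s')) = 0 := by
      linear_combination e1 - e2
    have h3 := (mul_eq_zero.1 this).resolve_left hs0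
    linear_combination h3
  have c0 : α ^ 2 - k = (β ^ 2 - l) * (s * s') := by
    linear_combination e1 - s * c1
  have hκ : β ^ 2 - l ≠ 0 := by
    intro h0
    have h3 : (a - b) ^ 2 = l * (s - s') ^ 2 := by
      rw [← hβ', mul_pow]
      linear_combination (s - s') ^ 2 * h0
    have h4 : a ^ 2 + b ^ 2 - l * (s - s') ^ 2 = 2 * (a * b) := by
      linear_combination h3
    have h5 : (m ^ 2 - 4 * l * k) * (s - s') ^ 2 = 0 := by
      have h6 : (a ^ 2 + b ^ 2 - l * (s - s') ^ 2) ^ 2 = 4 * (a ^ 2 * b ^ 2) := by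
        rw [h4]
        ring
      rw [ha, hb] at h6
      linear_combination h6
    rcases mul_eq_zero.1 h5 with h6 | h6
    · exact hD h6
    · exact hs0 (pow_eq_zero_iff (two_ne_zero)|>.1 h6)
  have hpol : (C α + C β * X) ^ 2 - (C l * X ^ 2 + C m * X + C k) =
      C (β ^ 2 - l) * ((X - C s) * (X - C s')) := by
    have d1 : (C (2 * α * β - m) : F[X]) = C (-(β ^ 2 - l) * (s + s')) := by rw [c1]
    have d0 : (C (α ^ 2 - k) : F[X]) = C ((β ^ 2 - l) * (s * s')) := by rw [c0]
    simp only [map_sub, map_mul, map_pow, map_neg, map_add, C_ofNat] at d1 d0 ⊢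
    linear_combination X * d1 + d0
  have hmem : dl (mv x i r) 0 + (dl (mv x i r) 0 + (dl (mv x i s) (a * (s - r)) +
      (dl (mv x i s') (b * (s' - r)) + 0))) ∈ Rat f := by
    apply AddSubgroup.subset_closure
    left
    left
    refine ⟨x, i, (X - C r) * (C α + C β * X), -1,
      (r, 0) ::ₘ (r, 0) ::ₘ (s, a * (s - r)) ::ₘ (s', b * (s' - r)) ::ₘ 0, ⟨?_, ?_, ?_, ?_⟩, ?_⟩
    · exact isCoprime_one_right.neg_right
    · intro t ht
      rw [hq]
      simp only [Multiset.mem_cons, Multiset.notMem_zero, or_false] at ht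
      rcases ht with rfl | rfl | rfl | rfl
      · constructor <;> simp
      · constructor <;> simp
      · constructor
        · simp only [eval_mul, eval_pow, eval_sub, eval_X, eval_C, eval_add]
          rw [← ha]
          ring
        · simp only [eval_mul, eval_sub, eval_X, eval_C, eval_add, eval_neg, eval_one]
          rw [h1]
          ring
      · constructor
        · simp only [eval_mul, eval_pow, eval_sub, eval_X, eval_C, eval_add]
          rw [← hb]
          ring
        · simp only [eval_mul, eval_sub, eval_X, eval_C, eval_add, eval_neg, eval_one]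
          rw [h2]
          ring
    · refine ⟨β ^ 2 - l, hκ, ?_⟩
      rw [hq]
      simp only [Multiset.map_cons, Multiset.map_zero, Multiset.prod_cons, Multiset.prod_zero]
      linear_combination (X - C r) ^ 2 * hpol
    · refine ⟨2, by simp, ?_, by simp⟩
      refine natDegree_mul_le.trans ?_
      have g1 : (X - C r : F[X]).natDegree ≤ 1 := (natDegree_X_sub_C r).le
      have g2 : (C α + C β * X : F[X]).natDegree ≤ 1 := by
        rw [add_comm]
        exact natDegree_linear_le
      omega
    · simp only [Multiset.map_cons, Multiset.map_zero, Multiset.sum_cons, Multiset.sum_zero]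
  rw [dl_zero, zero_add, zero_add, add_zero] at hmem
  exact hmem

end

/-- JOB NOD of project ZC -/
theorem nod : S_NOD := by
  intro F _ _ _ n f x i hdeg hr w hw
  obtain ⟨r, hr0, hr1⟩ := hr
  have hq4 : (rst f x (Pi.single i 1)).natDegree ≤ 4 := deg_rst hdeg x
  obtain ⟨q, hqd⟩ : ∃ q : F[X], q = rst f x (Pi.single i 1) := ⟨_, rfl⟩
  rw [← hqd] at hr0 hr1 hq4
  -- the double root
  obtain ⟨q1, hq1⟩ := dvd_iff_isRoot.2 (show q.IsRoot r from hr0)
  have hq1r : q1.eval r = 0 := by
    rw [hq1, derivative_mul] at hr1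
    simpa using hr1
  obtain ⟨q0, hq0⟩ := dvd_iff_isRoot.2 (show q1.IsRoot r from hq1r)
  have hqq : q = (X - C r) ^ 2 * q0 := by rw [hq1, hq0]; ring
  have hdeg0 : q0.natDegree < 3 := by
    by_cases h0 : q0 = 0
    · rw [h0]
      simp
    · rw [hqq, ((monic_X_sub_C r).pow 2).natDegree_mul' h0, (monic_X_sub_C r).natDegree_pow,
        natDegree_X_sub_C] at hq4
      omega
  obtain ⟨l, m, k, hlmk⟩ : ∃ l m k : F, q0 = C l * X ^ 2 + C m * X + C k := by
    refine ⟨q0.coeff 2, q0.coeff 1, q0.coeff 0, ?_⟩
    conv_lhs => rw [as_sum_range_C_mul_X_pow' q0 hdeg0]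
    rw [Finset.sum_range_succ, Finset.sum_range_succ, Finset.sum_range_succ, Finset.sum_range_zero]
    ring
  rw [hlmk] at hqq
  by_cases hD : m ^ 2 - 4 * l * k = 0
  · -- a square
    obtain ⟨h0, hh0⟩ : ∃ h0 : F[X], h0 ^ 2 = C l * X ^ 2 + C m * X + C k := by
      by_cases hl : l = 0
      · have hm : m = 0 := by
          rw [hl] at hD
          have : m ^ 2 = 0 := by linear_combination hD
          exact pow_eq_zero_iff two_ne_zero |>.1 this
        obtain ⟨e, he⟩ := IsAlgClosed.exists_pow_nat_eq k (n := 2) (by norm_num)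
        refine ⟨C e, ?_⟩
        rw [hl, hm, ← C_pow, he]
        simp
      · obtain ⟨e, he⟩ := IsAlgClosed.exists_pow_nat_eq l (n := 2) (by norm_num)
        have he0 : e ≠ 0 := by
          rintro rfl
          apply hl
          rw [← he]
          norm_num
        refine ⟨C e * X + C (m / (2 * e)), ?_⟩
        have g1 : (C (2 * e * (m / (2 * e))) : F[X]) = C m := by
          congr 1
          field_simp
        have g0 : (C ((m / (2 * e)) ^ 2) : F[X]) = C k := by
          congr 1
          field_simp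
          rw [he]
          linear_combination hD
        have g2 : (C (e ^ 2) : F[X]) = C l := by rw [he]
        simp only [map_mul, map_pow, C_ofNat] at g1 g0 g2
        linear_combination X ^ 2 * g2 + X * g1 + g0
    have := nod_sq f x i r ((X - C r) * h0) (by rw [mul_pow, hh0, ← hqq, hqd]) (by simp) w hw
    exact nsmul_mem this 2
  · by_cases hw0 : w = 0
    · rw [hw0, dl_zero, smul_zero]
      exact zero_mem _
    have h0w : (0 - r) ^ 2 * k = w ^ 2 := by
      have h1 : q.eval 0 = w ^ 2 := by rw [hqd, rst_mv, mv_zero, hw]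
      rw [hqq] at h1
      simpa using h1
    have hr00 : r ≠ 0 := by
      rintro rfl
      rw [sub_zero] at h0w
      apply hw0
      have : w ^ 2 = 0 := by rw [← h0w]; ring
      exact pow_eq_zero_iff two_ne_zero |>.1 this
    classical
    obtain ⟨s1, hs1⟩ := Infinite.exists_notMem_finset ({0, r} : Finset F)
    obtain ⟨s2, hs2⟩ := Infinite.exists_notMem_finset ({0, r, s1} : Finset F)
    simp only [Finset.mem_insert, Finset.mem_singleton, not_or] at hs1 hs2
    obtain ⟨a1, ha1⟩ := IsAlgClosed.exists_pow_nat_eq (l * s1 ^ 2 + m * s1 + k) (n := 2) (by norm_num)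
    obtain ⟨a2, ha2⟩ := IsAlgClosed.exists_pow_nat_eq (l * s2 ^ 2 + m * s2 + k) (n := 2) (by norm_num)
    have ha0 : (-w / r) ^ 2 = l * 0 ^ 2 + m * 0 + k := by
      rw [div_pow, div_eq_iff (pow_ne_zero 2 hr00)]
      linear_combination -h0w
    have hq' : rst f x (Pi.single i 1) = (X - C r) ^ 2 * (C l * X ^ 2 + C m * X + C k) := by
      rw [← hqd, hqq]
    have k1 := nod_two f x i r l m k hq' hD 0 s1 (-w / r) a1 (Ne.symm hs1.1) ha0 ha1
    have k2 := nod_two f x i r l m k hq' hD 0 s2 (-w / r) a2 (Ne.symm hs2.1) ha0 ha2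
    have k3 := nod_two f x i r l m k hq' hD s1 s2 a1 a2 (Ne.symm hs2.2.2) ha1 ha2
    have e0 : -w / r * (0 - r) = w := by
      field_simp
      ring
    rw [mv_zero, e0] at k1 k2
    have := sub_mem (add_mem k1 k2) k3
    convert this using 1
    rw [two_nsmul]
    abel

end Pool.Agent.Q68.ZC
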